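import Pool.Agent.Q200.NE.Main

/-!
# Noncommutative Beilinson conjecture for sums of ternary cubic forms
-/

open CategoryTheory MonoidalCategory

universe v u w

namespace Pool.Agent.Q200.NE

/-- The data `NCData`, `k` finite, together with the noncommutative Beilinson conjecture. -/
structure BeilinsonData (𝓜 : Type u) [Category.{v} 𝓜] extends NCData.{v, u, w} 𝓜 where
  /-- the kernel of the Euler pairing on `K_0(A) ⊗ ℚ` is zero -/
  EulerNondegenerate : Cat → Prop

/-- Known facts: those on motives, and `additive` (Spiess, Kahn: rational and numerical equivalence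
coincide on products of elliptic curves; Tabuada, Van den Bergh: additivity). -/
structure BeilinsonData.Facts {𝓜 : Type u} [Category.{v} 𝓜] [MonoidalCategory 𝓜] [Preadditive 𝓜]
    (T : BeilinsonData.{v, u, w} 𝓜) : Prop where
  mot : T.MotFacts
  additive : T.Additive T.EulerNondegenerate

end Pool.Agent.Q200.NE
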