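import Pool.Agent.Q28.HJ.GDefs

/-!
# Smooth proper dg categories built from sums of ternary cubic forms: definitions
-/

open CategoryTheory MonoidalCategory

universe v u w

namespace Pool.Agent.Q200.NE

open Pool.Agent.Q28.HJ (pow JoinData GenBy)

/-- The category `𝓜` of Chow motives, with rational coefficients, over an algebraic closure of a
field `k` of characteristic `p ≥ 5` (finite for most applications), with the hypersurfaces; the smooth
projective schemes over `k`; and the smooth proper dg categories over `k` with some constructions. -/
structure NCData (𝓜 : Type u) [Category.{v} 𝓜] extends JoinData.{v, u, w} 𝓜 where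
  /-- `M = h^1(E)` for an elliptic curve `E` -/
  Ell : 𝓜 → Prop
  /-- the motive of a smooth hypersurface -/
  mot : Hyp → 𝓜
  /-- the smooth projective schemes over `k` -/
  Var : Type w
  /-- the Chow motive of `X` over the algebraic closure -/
  motV : Var → 𝓜
  /-- the smooth proper dg categories over `k` -/
  Cat : Type w
  /-- the dg category `perf_dg(X)` -/
  perf : Var → Cat
  /-- `Azu X A`: `A = perf_dg(X; 𝓑)` for a sheaf `𝓑` of Azumaya algebras on `X` -/
  Azu : Var → Cat → Prop
  /-- `Adm C A`: `C` is the dg category of an admissible subcategory of (the perfect modules over)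
  `A` -/
  Adm : Cat → Cat → Prop
  /-- `Glue A B C`: `C` has a semiorthogonal decomposition with the two parts `A` and `B` -/
  Glue : Cat → Cat → Cat → Prop
  /-- `Orb F X C`: `C = perf_dg([X / G])` for an action on `X` of a finite group `G` of order prime to
  `p`, and `F` is the set of the schemes `X^σ ×_k k'`, `X^σ` the fixed point scheme of a cyclic
  subgroup `σ` of `G`, `k'` a finite extension of `k` -/
  Orb : Set Var → Var → Cat → Prop

namespace NCData

variable {𝓜 : Type u} [Category.{v} 𝓜] [MonoidalCategory 𝓜] [Preadditive 𝓜]
  (T : NCData.{v, u, w} 𝓜)

/-- The motive is obtained by tensor products, direct sums, direct summands and Tate twists from the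
motives `h^1(E)` of elliptic curves and the motives of the smooth hypersurfaces of arbitrary dimension
which are sums, in disjoint sets of variables, of cubic forms in at most three variables or of binary
quartic forms (see `IsEllipticSum`). -/
def EllipticType (M : 𝓜) : Prop :=
  GenBy T.L (fun N => T.Ell N ∨ ∃ W, T.IsEllipticSum W ∧ N = T.mot W) M

/-- The smallest class of smooth proper dg categories over `k` which contains
* `perf_dg(X)` for the smooth projective `X` with motive of type `EllipticType`, and the twisted forms
  `perf_dg(X; 𝓑)`, `𝓑` a sheaf of Azumaya algebras;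
* `perf_dg([X / G])` for finite groups `G` of order prime to `p` acting on `X` such that all fixed
  point schemes `X^σ` of cyclic subgroups have motives of this type;
* the admissible subcategories of its members, and the dg categories with a semiorthogonal
  decomposition into two members. -/
inductive Built : T.Cat → Prop
  | perf (X : T.Var) (h : T.EllipticType (T.motV X)) : Built (T.perf X)
  | azu (X : T.Var) (A : T.Cat) (h : T.EllipticType (T.motV X)) (hA : T.Azu X A) : Built A
  | orb (F : Set T.Var) (X : T.Var) (C : T.Cat) (h : ∀ Y ∈ F, T.EllipticType (T.motV Y))
      (hC : T.Orb F X C) : Built C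
  | adm {C A : T.Cat} (h : T.Adm C A) (hA : Built A) : Built C
  | glue {A B C : T.Cat} (h : T.Glue A B C) (hA : Built A) (hB : Built B) : Built C

/-- Known facts on motives: `core`: sums of forms (Shioda, Katsura); `elliptic`: plane cubic curves,
cubic surfaces, quartic curves `f(x, y) = u ^ 4`; `mot`: the motive of a hypersurface is a direct sum
of `M_X` and of powers of `L`. -/
structure MotFacts : Prop where
  core : T.CoreFacts
  elliptic : T.EllipticFacts T.Ell
  mot : ∀ X : T.Hyp, T.Smooth X → GenBy T.L (fun N => N = T.prim X) (T.mot X)

/-- Known facts on a property `P` of smooth proper dg categories.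
* `elliptic`: `P(perf_dg(X))` holds for the smooth projective `X` whose motive over the algebraic
  closure is generated by elliptic curves.
* `azu` to `glue`: `P` depends only on the noncommutative Chow motive `U(A)` with rational
  coefficients, and is compatible with direct sums and summands. Now `U(X; 𝓑) = U(X)`,
  `U([X / G])` is a direct summand of a sum of the `U(X^σ ×_k k')` (after an extension of the
  coefficients), `U(C)` is a direct summand of `U(A)` for `C` admissible in `A`, and
  `U(C) = U(A) ⊕ U(B)` for a semiorthogonal decomposition (Tabuada, Van den Bergh). -/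
structure Additive (P : T.Cat → Prop) : Prop where
  elliptic : ∀ X : T.Var, GenBy T.L T.Ell (T.motV X) → P (T.perf X)
  azu : ∀ (X : T.Var) (A : T.Cat), T.Azu X A → P (T.perf X) → P A
  orb : ∀ (F : Set T.Var) (X : T.Var) (C : T.Cat), T.Orb F X C → (∀ Y ∈ F, P (T.perf Y)) → P C
  adm : ∀ {C A : T.Cat}, T.Adm C A → P A → P C
  glue : ∀ {A B C : T.Cat}, T.Glue A B C → P A → P B → P C

end NCData

end Pool.Agent.Q200.NE
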