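import Pool.Agent.Q200.NE.Defs
import Pool.Agent.Q28.HJ.GMain

/-!
# Smooth proper dg categories built from sums of ternary cubic forms
-/

open CategoryTheory MonoidalCategory

universe v u w

namespace Pool.Agent.Q200.NE

open Pool.Agent.Q28.HJ (pow JoinData GenBy)

namespace NCData

variable {𝓜 : Type u} [Category.{v} 𝓜] [Preadditive 𝓜] [MonoidalCategory 𝓜]
  {T : NCData.{v, u, w} 𝓜}

lemma gen_ell (hT : T.MotFacts) {M : 𝓜} (hM : T.EllipticType M) : GenBy T.L T.Ell M := by
  refine GenBy.bind ?_ hM
  rintro N (hN | ⟨W, hW, rfl⟩)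
  · exact .of hN
  · obtain ⟨⟨hs, -⟩, h⟩ := JoinData.elliptic_sum hT.core hT.elliptic hW
    refine (hT.mot W hs).bind ?_
    rintro N rfl
    exact h

/-- main theorem -/
theorem final (hT : T.MotFacts) {P : T.Cat → Prop} (hP : T.Additive P) (C : T.Cat)
    (hC : T.Built C) : P C := by
  induction hC with
  | perf X h => exact hP.elliptic X (gen_ell hT h)
  | azu X A h hA => exact hP.azu X A hA (hP.elliptic X (gen_ell hT h))
  | orb F X C h hC => exact hP.orb F X C hC (fun Y hY => hP.elliptic Y (gen_ell hT (h Y hY)))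
  | adm h _ a => exact hP.adm h a
  | glue h _ _ a b => exact hP.glue h a b

end NCData

end Pool.Agent.Q200.NE
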