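import Pool.Agent.Q200.NE.Main

/-!
# Noncommutative Tate conjecture for sums of ternary cubic forms
-/

open CategoryTheory MonoidalCategory

universe v u w

namespace Pool.Agent.Q200.NE

/-- The data `NCData`, `k` finite, together with the noncommutative Tate conjecture. -/
structure TateData (𝓜 : Type u) [Category.{v} 𝓜] extends NCData.{v, u, w} 𝓜 where
  /-- the groups `G_n(A) = Hom(ℤ(l^∞), π_(-1)(L_KU(K(A ⊗ F_(q^n)))))` are zero, for all `n ≥ 1` and
  all primes `l ≠ p` -/
  TateNC : Cat → Prop

/-- Known facts: those on motives, and `additive` (Thomason, Tabuada: comparison with `T^l(X)`;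
Spiess: the Tate conjecture for products of elliptic curves; Tabuada, Van den Bergh: additivity). -/
structure TateData.Facts {𝓜 : Type u} [Category.{v} 𝓜] [MonoidalCategory 𝓜] [Preadditive 𝓜]
    (T : TateData.{v, u, w} 𝓜) : Prop where
  mot : T.MotFacts
  additive : T.Additive T.TateNC

end Pool.Agent.Q200.NE
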